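import Pool.Agent.H903HT.Brief
import Pool.Agent.H903HT.Final2
import Pool.Agent.H903HT.TaskResolvent
import Pool.Agent.H903HT.EigTotal
import Pool.Agent.H903HT.TaskCore
import Pool.Agent.H903HT.Hodge
import Pool.Agent.H903HT.TaskAdj
import Pool.Agent.H903HT.BoxClosed
import Pool.Agent.H903HT.TaskClosed0
import Pool.Agent.H903HT.Closed1
import Pool.Agent.H903HT.Dense0
import Pool.Agent.H903HT.Dense1
import Pool.Agent.H903HT.TaskComplex
import Pool.Agent.H903HT.TaskRot
import Pool.Agent.H903HT.TaskModeClosed
import Pool.Agent.H903HT.RotFun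
import Pool.Agent.H903HT.RotForm
import Pool.Agent.H903HT.ModeInv0
import Pool.Agent.H903HT.ModeInv2
import Pool.Agent.H903HT.ModeTotal
import Pool.Agent.H903HT.CompactAdj
import Pool.Agent.H903HT.Polar
import Pool.Agent.H903HT.TaskProfile
import Pool.Agent.H903HT.TaskIso
import Pool.Agent.H903HT.PairB
import Pool.Agent.H903HT.Fourier
import Pool.Agent.H903HT.MulTest
import Pool.Agent.H903HT.TestFun
import Pool.Agent.H903HT.Weak
import Pool.Agent.H903HT.Integral
import Pool.Agent.H903HT.HS
import Pool.Agent.H903HT.Pos
import Pool.Agent.H903HT.Neg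
import Pool.Agent.H903HT.ApproxSwap
import Pool.Agent.H903HT.TB
import Pool.Agent.H416R3.HTCompact
import Pool.Agent.H903HT.FormRot
import Pool.Agent.H903HT.FormTotal
import Pool.Agent.H903HT.InvSub
import Pool.Agent.H903HT.BoxMode
import Pool.Agent.H394R3.HT.Finite
import Pool.Agent.H479R3.HT.ONB2
import Pool.Agent.H903HT.FormOrth
import Pool.Agent.H903HT.FormClosed
import Pool.Agent.H903HT.BoxSym

/-!
The `∂̄`-Neumann operator on (0,1)-forms of the Hartogs triangle has pure point spectrum.
-/

set_option autoImplicit false

open MeasureTheory Filter Topology Set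

namespace Pool.Agent.Results.MP_169ce5_an.PurePointSpectrum

theorem structure_holds : Pool.Agent.H903HT.Structure := by
  open Pool.Agent.H903HT in
  have hC : Compact := compact_of_tasks taskPolar taskProfile taskIso taskPairB taskFourier
    taskMulTest taskTestFun taskWeak taskIntegral taskHS taskPos taskNeg taskApproxSwap taskTB
    Pool.Agent.H416R3.htCompactAssembly
  open Pool.Agent.H903HT in
  exact structure_of_tasks taskResolvent taskEigTotal taskCore taskHodge taskAdj taskBoxClosed
    taskClosed0 taskClosed1 taskDense0 taskDense1 taskComplex taskRot taskModeClosed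
    taskRotFun taskRotForm taskModeInv0 taskModeInv2 taskModeTotal hC taskCompactAdj
    taskFormRot taskFormTotal taskInvSub taskBoxMode taskFinite taskONB2 taskFormOrth
    taskFormClosed taskBoxSym

open Pool.Agent.H903HT.Br

/-- On the Hartogs triangle `T` the space `L²₀,₁(T)` has a countable orthonormal basis of
eigenforms `b i` of the complex Laplacian `□ = ∂̄∂̄* + ∂̄*∂̄`, each of some weight `κ i` under the
torus action; every bounded operator `N` inverting `□` (the `∂̄`-Neumann operator) is diagonal in
this basis, its spectrum is the closure of the set of its eigenvalues, and for every weight the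
eigenvalues form a null sequence (with finite multiplicities). -/
theorem result :
    ∃ (ι : Type) (b : HilbertBasis ι ℂ Form) (l : ι → ℝ) (κ : ι → ℤ × ℤ), Countable ι ∧
      (∀ i, FormMode (κ i).1 (κ i).2 (b i)) ∧
      (∀ i, Box (b i) (rsmul (l i) (b i))) ∧
      ∀ N : Op, Inverts N → Diag b l N ∧ SpecEq l N ∧
        ∀ (m n : ℤ) (ε : ℝ), 0 < ε → {i | κ i = (m, n) ∧ ε ≤ |(l i)⁻¹|}.Finite :=
  structure_holds

end Pool.Agent.Results.MP_169ce5_an.PurePointSpectrum
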